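import Mathlib

-- merged part: Pool.Agent.Work.MP_5c86b6_an.Lac.Basic
section
/-!
Monic symmetric three term recurrences with arbitrary coefficients, and coefficients of a
polynomial in the basis they generate.
-/

open Polynomial Finset

namespace Pool.Agent.Work.MP_5c86b6_an.Lac

/-- The monic polynomials of the recurrence with coefficients `l`. -/
noncomputable def mp (l : ℕ → ℝ) : ℕ → ℝ[X]
  | 0 => 1
  | 1 => X
  | (i + 2) => X * mp l (i + 1) - C (l (i + 1)) * mp l i

@[simp] lemma mp_zero (l : ℕ → ℝ) : mp l 0 = 1 := rfl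
@[simp] lemma mp_one (l : ℕ → ℝ) : mp l 1 = X := rfl
lemma mp_add_two (l : ℕ → ℝ) (i : ℕ) :
    mp l (i + 2) = X * mp l (i + 1) - C (l (i + 1)) * mp l i := rfl

/-- Multiplication by `X` on coefficient vectors. -/
def J (l : ℕ → ℝ) : Module.End ℝ (ℕ → ℝ) where
  toFun v k := Nat.casesOn k 0 v + l (k + 1) * v (k + 1)
  map_add' v w := by
    funext k
    cases k <;> simp <;> ring
  map_smul' a v := by
    funext k
    cases k <;> simp <;> ring

lemma J_zero (l v : ℕ → ℝ) : J l v 0 = l 1 * v 1 := by simp [J]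
lemma J_succ (l v : ℕ → ℝ) (k : ℕ) : J l v (k + 1) = v k + l (k + 2) * v (k + 2) := rfl

/-- The coefficient vector of a polynomial in the basis `mp l`. -/
noncomputable def co (l : ℕ → ℝ) : ℝ[X] →ₗ[ℝ] (ℕ → ℝ) :=
  LinearMap.applyₗ (Pi.single 0 1 : ℕ → ℝ) ∘ₗ (aeval (J l)).toLinearMap

lemma co_one (l : ℕ → ℝ) : co l 1 = Pi.single 0 1 := by simp [co]

lemma co_X_mul (l : ℕ → ℝ) (F : ℝ[X]) : co l (X * F) = J l (co l F) := by simp [co]

lemma co_C_mul (l : ℕ → ℝ) (a : ℝ) (F : ℝ[X]) : co l (C a * F) = a • co l F := by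
  rw [← smul_eq_C_mul, map_smul]

lemma co_mp (l : ℕ → ℝ) (b : ℕ) : co l (mp l b) = Pi.single b 1 := by
  induction b using Nat.twoStepInduction with
  | zero => exact co_one l
  | one =>
    rw [mp_one, ← mul_one X, co_X_mul, co_one]
    funext k
    cases k with
    | zero => simp [J_zero]
    | succ k => simp [J_succ, Pi.single_apply]
  | more i h0 h1 =>
    rw [mp_add_two, map_sub, co_X_mul, co_C_mul, h0, h1]
    funext k
    cases k with
    | zero =>
      simp only [J_zero, Pi.sub_apply, Pi.smul_apply, Pi.single_apply, smul_eq_mul]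
      rcases eq_or_ne i 0 with rfl | h
      · simp
      · simp [h, h.symm]
    | succ k =>
      simp only [J_succ, Pi.sub_apply, Pi.smul_apply, Pi.single_apply, smul_eq_mul]
      rcases eq_or_ne i (k + 1) with rfl | h
      · simp only [if_neg (show ¬ k = k + 1 + 1 by omega), if_neg (show ¬ k + 1 = k + 1 + 2 by omega)]
        simp
      · rw [if_neg (show ¬ k + 2 = i + 1 by omega), if_neg h.symm]
        simp

lemma X_mul_mp (l : ℕ → ℝ) (i : ℕ) :
    X * mp l (i + 1) = mp l (i + 2) + C (l (i + 1)) * mp l i := by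
  rw [mp_add_two]; ring

lemma span_mp (l : ℕ → ℝ) : Submodule.span ℝ (Set.range (mp l)) = ⊤ := by
  have hX : ∀ F ∈ Submodule.span ℝ (Set.range (mp l)),
      X * F ∈ Submodule.span ℝ (Set.range (mp l)) := by
    intro F hF
    induction hF using Submodule.span_induction with
    | mem x hx =>
      obtain ⟨i, rfl⟩ := hx
      cases i with
      | zero => exact Submodule.subset_span ⟨1, by simp⟩
      | succ i =>
        rw [X_mul_mp, ← smul_eq_C_mul]
        exact add_mem (Submodule.subset_span ⟨_, rfl⟩)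
          (Submodule.smul_mem _ _ (Submodule.subset_span ⟨_, rfl⟩))
    | zero => simp
    | add x y _ _ hx hy => rw [mul_add]; exact add_mem hx hy
    | smul a x _ hx => rw [mul_smul_comm]; exact Submodule.smul_mem _ _ hx
  have hk : ∀ k : ℕ, (X ^ k : ℝ[X]) ∈ Submodule.span ℝ (Set.range (mp l)) := by
    intro k
    induction k with
    | zero => exact Submodule.subset_span ⟨0, by simp⟩
    | succ k ih => rw [pow_succ']; exact hX _ ih
  refine eq_top_iff.2 fun F _ => ?_
  induction F using Polynomial.induction_on' with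
  | add p q hp hq => exact add_mem (hp trivial) (hq trivial)
  | monomial k a =>
    rw [← C_mul_X_pow_eq_monomial, ← smul_eq_C_mul]
    exact Submodule.smul_mem _ _ (hk k)

lemma mp_ext {M : Type} [AddCommGroup M] [Module ℝ M] (l : ℕ → ℝ) {f g : ℝ[X] →ₗ[ℝ] M}
    (h : ∀ i, f (mp l i) = g (mp l i)) : f = g :=
  LinearMap.ext_on_range (span_mp l) h

lemma co_inj (l : ℕ → ℝ) {F : ℝ[X]} (h : co l F = 0) : F = 0 := by
  obtain ⟨v, rfl⟩ := Finsupp.mem_span_range_iff_exists_finsupp.1
    (show F ∈ Submodule.span ℝ (Set.range (mp l)) by rw [span_mp]; trivial)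
  have hv : v = 0 := by
    ext k
    have := congrFun h k
    simp only [Finsupp.sum, map_sum, map_smul, co_mp, Finset.sum_apply, Pi.smul_apply,
      Pi.single_apply, smul_eq_mul, mul_ite, mul_one, mul_zero, Finset.sum_ite_eq,
      Pi.zero_apply] at this
    split_ifs at this with hk
    · exact this
    · exact Finsupp.notMem_support_iff.1 hk
  simp [hv]

lemma expand (l : ℕ → ℝ) {F : ℝ[X]} {d : ℕ} (h : ∀ c, d ≤ c → co l F c = 0) :
    F = ∑ i ∈ range d, C (co l F i) * mp l i := by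
  rw [← sub_eq_zero]
  refine co_inj l ?_
  funext k
  simp only [map_sub, map_sum, co_C_mul, co_mp, Pi.sub_apply, Finset.sum_apply, Pi.smul_apply,
    Pi.single_apply, smul_eq_mul, mul_ite, mul_one, mul_zero, Finset.sum_ite_eq, mem_range,
    Pi.zero_apply]
  split_ifs with hk
  · ring
  · rw [h k (not_lt.1 hk)]; ring

lemma co_mul_expand (l v : ℕ → ℝ) {G : ℝ[X]} {d : ℕ} (h : ∀ c, d ≤ c → co l G c = 0)
    (F : ℝ[X]) (c : ℕ) :
    co v (G * F) c = ∑ i ∈ range d, co l G i * co v (mp l i * F) c := by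
  conv_lhs => rw [expand l h]
  simp only [Finset.sum_mul, mul_assoc, map_sum, co_C_mul, Finset.sum_apply, Pi.smul_apply,
    smul_eq_mul]

/-- degree at most `d` and parity of `d` -/
def Supp (l : ℕ → ℝ) (F : ℝ[X]) (d : ℕ) : Prop :=
  ∀ c, (d < c ∨ (c + d) % 2 = 1) → co l F c = 0

lemma supp_one (l : ℕ → ℝ) : Supp l 1 0 := fun c hc => by
  rw [co_one, Pi.single_apply, if_neg (by omega)]

lemma Supp.X_mul {l : ℕ → ℝ} {F : ℝ[X]} {d : ℕ} (h : Supp l F d) : Supp l (X * F) (d + 1) := by
  intro c hc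
  rw [co_X_mul]
  cases c with
  | zero => rw [J_zero, h 1 (by omega), mul_zero]
  | succ c => rw [J_succ, h c (by omega), h (c + 2) (by omega)]; ring

lemma Supp.mp_mul {l : ℕ → ℝ} {F : ℝ[X]} {d : ℕ} (h : Supp l F d) (l' : ℕ → ℝ) (a : ℕ) :
    Supp l (mp l' a * F) (a + d) := by
  induction a using Nat.twoStepInduction with
  | zero => simpa using h
  | one => simpa [add_comm] using h.X_mul
  | more i h0 h1 =>
    intro c hc
    rw [mp_add_two, sub_mul, mul_assoc, mul_assoc, map_sub, co_C_mul, Pi.sub_apply, Pi.smul_apply,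
      h1.X_mul c (by omega), h0 c (by omega)]
    simp

lemma Supp.top {l : ℕ → ℝ} {F : ℝ[X]} {d : ℕ} (h : Supp l F d) (l' : ℕ → ℝ) (a : ℕ) :
    co l (mp l' a * F) (a + d) = co l F d := by
  induction a using Nat.twoStepInduction with
  | zero => simp
  | one => rw [mp_one, co_X_mul, add_comm, J_succ, h (d + 2) (by omega)]; ring
  | more i _ h1 =>
    rw [mp_add_two, sub_mul, mul_assoc, mul_assoc, map_sub, co_C_mul, Pi.sub_apply, Pi.smul_apply,
      h.mp_mul l' i _ (by omega), co_X_mul, show i + 2 + d = i + 1 + d + 1 by ring, J_succ, h1,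
      h.mp_mul l' (i + 1) _ (by omega)]
    simp

lemma supp_mp (l l' : ℕ → ℝ) (a : ℕ) : Supp l (mp l' a) a := by
  simpa using (supp_one l).mp_mul l' a

lemma top_mp (l l' : ℕ → ℝ) (a : ℕ) : co l (mp l' a) a = 1 := by
  simpa [co_one] using (supp_one l).top l' a

lemma supp_mp_mul (l l' l'' : ℕ → ℝ) (a b : ℕ) : Supp l (mp l' a * mp l'' b) (a + b) :=
  (supp_mp l l'' b).mp_mul l' a

lemma top_mp_mul (l l' l'' : ℕ → ℝ) (a b : ℕ) : co l (mp l' a * mp l'' b) (a + b) = 1 := by
  rw [(supp_mp l l'' b).top, top_mp]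

/-- squared norms -/
def N (l : ℕ → ℝ) (c : ℕ) : ℝ := ∏ i ∈ range c, l (i + 1)

@[simp] lemma N_zero (l : ℕ → ℝ) : N l 0 = 1 := rfl
lemma N_succ (l : ℕ → ℝ) (c : ℕ) : N l (c + 1) = N l c * l (c + 1) := prod_range_succ _ _

lemma N_pos {l : ℕ → ℝ} {c : ℕ} (h : ∀ i, 1 ≤ i → i ≤ c → 0 < l i) : 0 < N l c :=
  prod_pos fun i hi => h _ (by omega) (by have := mem_range.1 hi; omega)

lemma N_congr {l l' : ℕ → ℝ} {c : ℕ} (h : ∀ i, 1 ≤ i → i ≤ c → l i = l' i) : N l c = N l' c :=
  prod_congr rfl fun i hi => h _ (by omega) (by have := mem_range.1 hi; omega)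

lemma co_symm (l : ℕ → ℝ) (c : ℕ) (F : ℝ[X]) : co l (mp l c * F) 0 = N l c * co l F c := by
  induction c using Nat.twoStepInduction generalizing F with
  | zero => simp
  | one => rw [mp_one, co_X_mul, J_zero, N_succ]; simp
  | more i h0 h1 =>
    have e : mp l (i + 2) * F = mp l (i + 1) * (X * F) - C (l (i + 1)) * (mp l i * F) := by
      rw [mp_add_two]; ring
    rw [e, map_sub, co_C_mul, Pi.sub_apply, Pi.smul_apply, h0, h1, co_X_mul, J_succ, N_succ l (i + 1),
      N_succ l i, smul_eq_mul]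
    ring

/-- monic linearization coefficients -/
noncomputable def E (l : ℕ → ℝ) (a b c : ℕ) : ℝ := co l (mp l a * mp l b) c

lemma E_comm (l : ℕ → ℝ) (a b c : ℕ) : E l a b c = E l b a c := by rw [E, E, mul_comm]

lemma E_symm (l : ℕ → ℝ) (a b c : ℕ) : N l c * E l a b c = N l b * E l a c b := by
  rw [E, E, ← co_symm, ← co_symm, show mp l c * (mp l a * mp l b) = mp l b * (mp l a * mp l c) by ring]

lemma E_supp (l : ℕ → ℝ) (a b c : ℕ) (h : a + b < c ∨ (a + b + c) % 2 = 1) : E l a b c = 0 :=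
  supp_mp_mul l l l a b c (by omega)

lemma mp_congr {l l' : ℕ → ℝ} {b : ℕ} (h : ∀ i, 1 ≤ i → i < b → l i = l' i) :
    mp l b = mp l' b := by
  induction b using Nat.twoStepInduction with
  | zero => rfl
  | one => rfl
  | more i h0 h1 =>
    rw [mp_add_two, mp_add_two, h0 fun j a b => h j a (by omega), h1 fun j a b => h j a (by omega),
      h _ (by omega) (by omega)]

lemma co_congr {l l' : ℕ → ℝ} {d : ℕ} (h : ∀ i, 1 ≤ i → i < d → l i = l' i) {F : ℝ[X]}
    (hF : ∀ c, d < c → co l F c = 0) : co l' F = co l F := by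
  rw [expand l (d := d + 1) fun c hc => hF c hc, map_sum, map_sum]
  refine sum_congr rfl fun i hi => ?_
  have := mem_range.1 hi
  rw [co_C_mul, co_C_mul, co_mp, mp_congr (l' := l') fun j a b => h j a (by omega), co_mp]

lemma E_congr {l l' : ℕ → ℝ} {a b : ℕ} (h : ∀ i, 1 ≤ i → i < a + b → l i = l' i) (c : ℕ) :
    E l a b c = E l' a b c := by
  rw [E, E, ← mp_congr (l := l) (l' := l') fun j x y => h j x (by omega),
    ← mp_congr (l := l) (l' := l') fun j x y => h j x (by omega),
    co_congr h fun c hc => supp_mp_mul l l l a b c (Or.inl hc)]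

/-- concatenation of coefficient sequences -/
def cat (n : ℕ) (l v : ℕ → ℝ) (i : ℕ) : ℝ := if i < n then l i else v (i - n)

lemma cat_lt {n i : ℕ} (l v : ℕ → ℝ) (h : i < n) : cat n l v i = l i := if_pos h

lemma cat_add (n j : ℕ) (l v : ℕ → ℝ) : cat n l v (n + j) = v j := by
  rw [cat, if_neg (by omega), Nat.add_sub_cancel_left]

lemma cat_assoc (n m : ℕ) (l v t : ℕ → ℝ) :
    cat (n + m) (cat n l v) t = cat n l (cat m v t) := by
  funext i
  simp only [cat]
  split_ifs <;> first | rfl | omega | (congr 1; omega)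

lemma mp_cat_le {n i : ℕ} (l v : ℕ → ℝ) (h : i ≤ n) : mp (cat n l v) i = mp l i :=
  mp_congr fun j _ b => cat_lt l v (by omega)

lemma mp_cat_add {n : ℕ} (hn : 1 ≤ n) (l : ℕ → ℝ) {v : ℕ → ℝ} (hv : v 0 = 0) (j : ℕ) :
    mp (cat n l v) (n + j) = mp l n * mp v j := by
  induction j using Nat.twoStepInduction with
  | zero => simpa using mp_cat_le l v le_rfl
  | one =>
    obtain ⟨n, rfl⟩ := Nat.exists_eq_add_of_le' hn
    have := cat_add (n + 1) 0 l v
    rw [mp_add_two, mp_cat_le l v le_rfl, add_zero] at *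
    rw [this, hv]
    simp [mul_comm]
  | more i h0 h1 =>
    rw [← add_assoc, mp_add_two, h0, add_assoc n, h1, cat_add, mp_add_two]
    ring

lemma co_cat_hi {n : ℕ} (hn : 1 ≤ n) (l : ℕ → ℝ) {v : ℕ → ℝ} (hv : v 0 = 0) (F : ℝ[X]) (c : ℕ) :
    co (cat n l v) (mp l n * F) (n + c) = co v F c := by
  have := mp_ext v (f := LinearMap.proj (n + c) ∘ₗ co (cat n l v) ∘ₗ LinearMap.mulLeft ℝ (mp l n))
    (g := LinearMap.proj c ∘ₗ co v) fun i => by
      simp [← mp_cat_add hn l hv, co_mp, Pi.single_apply]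
  exact LinearMap.congr_fun this F

lemma co_cat_lo {n : ℕ} (l : ℕ → ℝ) {v : ℕ → ℝ} (hv : v 0 = 0) (F : ℝ[X]) {c : ℕ} (hc : c < n) :
    co (cat n l v) (mp l n * F) c = 0 := by
  have := mp_ext v (f := LinearMap.proj c ∘ₗ co (cat n l v) ∘ₗ LinearMap.mulLeft ℝ (mp l n))
    (g := 0) fun i => by
      have : c ≠ n + i := by omega
      simp [← mp_cat_add (show 1 ≤ n by omega) l hv, co_mp, this]
  exact LinearMap.congr_fun this F

lemma co_cat_indep {n : ℕ} (l : ℕ → ℝ) {v v' : ℕ → ℝ} (hv : v 0 = 0) (hv' : v' 0 = 0) (F : ℝ[X])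
    {c : ℕ} (hc : c < n) : co (cat n l v) F c = co (cat n l v') F c := by
  have := mp_ext (cat n l v) (f := LinearMap.proj c ∘ₗ co (cat n l v))
    (g := LinearMap.proj c ∘ₗ co (cat n l v')) fun i => by
      simp only [LinearMap.comp_apply, LinearMap.proj_apply, co_mp]
      rcases le_or_gt i n with h | h
      · rw [mp_cat_le l v h, ← mp_cat_le l v' h, co_mp]
      · obtain ⟨j, rfl⟩ := Nat.exists_eq_add_of_le h.le
        rw [mp_cat_add (by omega) l hv, co_cat_lo l hv' _ hc, Pi.single_apply, if_neg (by omega)]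
  exact LinearMap.congr_fun this F

section param

variable {T : Type} (S : Subalgebra ℝ (T → ℝ))

lemma param_X {v : T → ℕ → ℝ} (hv : ∀ i, (fun t => v t i) ∈ S) {F : T → ℝ[X]}
    (hF : ∀ c, (fun t => co (v t) (F t) c) ∈ S) (c : ℕ) :
    (fun t => co (v t) (X * F t) c) ∈ S := by
  simp only [co_X_mul]
  cases c with
  | zero => simp only [J_zero]; exact S.mul_mem (hv 1) (hF 1)
  | succ c => simp only [J_succ]; exact S.add_mem (hF c) (S.mul_mem (hv _) (hF _))

lemma param_mp {v l : T → ℕ → ℝ} (hv : ∀ i, (fun t => v t i) ∈ S) (hl : ∀ i, (fun t => l t i) ∈ S)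
    {F : T → ℝ[X]} (hF : ∀ c, (fun t => co (v t) (F t) c) ∈ S) (a c : ℕ) :
    (fun t => co (v t) (mp (l t) a * F t) c) ∈ S := by
  induction a using Nat.twoStepInduction generalizing c with
  | zero => simpa using hF c
  | one => exact param_X S hv hF c
  | more i h0 h1 =>
    simp only [mp_add_two, sub_mul, mul_assoc, map_sub, co_C_mul, Pi.sub_apply, Pi.smul_apply,
      smul_eq_mul]
    exact S.sub_mem (param_X S hv h1 c) (S.mul_mem (hl _) (h0 c))

lemma param_const {v : T → ℕ → ℝ} (hv : ∀ i, (fun t => v t i) ∈ S) (F : ℝ[X]) (c : ℕ) :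
    (fun t => co (v t) F c) ∈ S := by
  induction F using Polynomial.induction_on' generalizing c with
  | add p q hp hq => simp only [map_add, Pi.add_apply]; exact S.add_mem (hp c) (hq c)
  | monomial k a =>
    induction k generalizing c with
    | zero =>
      have : ∀ t, co (v t) (monomial 0 a) c = a * (Pi.single 0 1 : ℕ → ℝ) c := fun t => by
        rw [monomial_zero_left, ← mul_one (C a), co_C_mul, co_one]; rfl
      simp only [this]
      exact S.algebraMap_mem _
    | succ k ih =>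
      have : (monomial (k + 1) a : ℝ[X]) = X * monomial k a := by rw [X_mul_monomial]
      rw [this]
      exact param_X S hv (F := fun _ => monomial k a) ih c

lemma param_E {v : T → ℕ → ℝ} (hv : ∀ i, (fun t => v t i) ∈ S) (a b c : ℕ) :
    (fun t => E (v t) a b c) ∈ S := by
  refine param_mp S hv hv (F := fun t => mp (v t) b) (fun c => ?_) a c
  simp only [co_mp]
  exact S.algebraMap_mem _

end param

/-- functions continuous at a point -/
def contAlg {T : Type} [TopologicalSpace T] (x : T) : Subalgebra ℝ (T → ℝ) where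
  carrier := {f | ContinuousAt f x}
  mul_mem' := ContinuousAt.mul
  add_mem' := ContinuousAt.add
  algebraMap_mem' _ := continuousAt_const

/-- functions differentiable at a point -/
def diffAlg (x : ℝ × ℝ) : Subalgebra ℝ (ℝ × ℝ → ℝ) where
  carrier := {f | DifferentiableAt ℝ f x}
  mul_mem' := DifferentiableAt.mul
  add_mem' := DifferentiableAt.add
  algebraMap_mem' _ := differentiableAt_const _

lemma contAt_E {T : Type} [TopologicalSpace T] {x : T} {v : T → ℕ → ℝ}
    (hv : ∀ i, ContinuousAt (fun t => v t i) x) (a b c : ℕ) :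
    ContinuousAt (fun t => E (v t) a b c) x := param_E (contAlg x) hv a b c

lemma contAt_co {T : Type} [TopologicalSpace T] {x : T} {v : T → ℕ → ℝ}
    (hv : ∀ i, ContinuousAt (fun t => v t i) x) (F : ℝ[X]) (c : ℕ) :
    ContinuousAt (fun t => co (v t) F c) x := param_const (contAlg x) hv F c

lemma diffAt_E {x : ℝ × ℝ} {v : ℝ × ℝ → ℕ → ℝ}
    (hv : ∀ i, DifferentiableAt ℝ (fun t => v t i) x) (a b c : ℕ) :
    DifferentiableAt ℝ (fun t => E (v t) a b c) x := param_E (diffAlg x) hv a b c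

/-- values at `1` -/
noncomputable def u (l : ℕ → ℝ) (i : ℕ) : ℝ := (mp l i).eval 1

@[simp] lemma u_zero (l : ℕ → ℝ) : u l 0 = 1 := by simp [u]
@[simp] lemma u_one (l : ℕ → ℝ) : u l 1 = 1 := by simp [u]
lemma u_add_two (l : ℕ → ℝ) (i : ℕ) : u l (i + 2) = u l (i + 1) - l (i + 1) * u l i := by
  simp [u, mp_add_two]

lemma u_congr {l l' : ℕ → ℝ} {b : ℕ} (h : ∀ i, 1 ≤ i → i < b → l i = l' i) : u l b = u l' b := by
  rw [u, u, mp_congr h]

lemma contAt_u {T : Type} [TopologicalSpace T] {x : T} {v : T → ℕ → ℝ}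
    (hv : ∀ i, ContinuousAt (fun t => v t i) x) (a : ℕ) :
    ContinuousAt (fun t => u (v t) a) x := by
  induction a using Nat.twoStepInduction with
  | zero => simpa using continuousAt_const
  | one => simpa using continuousAt_const
  | more i h0 h1 => simp only [u_add_two]; exact h1.sub ((hv _).mul h0)

lemma contAt_N {T : Type} [TopologicalSpace T] {x : T} {v : T → ℕ → ℝ}
    (hv : ∀ i, ContinuousAt (fun t => v t i) x) (a : ℕ) :
    ContinuousAt (fun t => N (v t) a) x := by
  induction a with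
  | zero => simpa using continuousAt_const
  | succ i h => simp only [N_succ]; exact h.mul (hv _)

/-- the second solution of the recurrence at `1` -/
def w (l : ℕ → ℝ) : ℕ → ℝ
  | 0 => 0
  | 1 => 1
  | (i + 2) => w l (i + 1) - l (i + 1) * w l i

lemma w_add_two (l : ℕ → ℝ) (i : ℕ) : w l (i + 2) = w l (i + 1) - l (i + 1) * w l i := rfl

lemma contAt_w {T : Type} [TopologicalSpace T] {x : T} {v : T → ℕ → ℝ}
    (hv : ∀ i, ContinuousAt (fun t => v t i) x) (a : ℕ) :
    ContinuousAt (fun t => w (v t) a) x := by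
  induction a using Nat.twoStepInduction with
  | zero => exact continuousAt_const
  | one => exact continuousAt_const
  | more i h0 h1 => simp only [w_add_two]; exact h1.sub ((hv _).mul h0)

lemma casorati (l : ℕ → ℝ) (j : ℕ) : u l j * w l (j + 1) - u l (j + 1) * w l j = N l j := by
  induction j with
  | zero => simp [w]
  | succ j ih => rw [u_add_two, w_add_two, N_succ, ← ih]; ring

lemma u_cat_add (n : ℕ) (l v : ℕ → ℝ) (j : ℕ) :
    u (cat (n + 1) l v) (n + 1 + j) = u l (n + 1) * u v j - v 0 * u l n * w v j := by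
  have h0 : ∀ i, i ≤ n + 1 → u (cat (n + 1) l v) i = u l i := fun i hi => by
    rw [u, u, mp_cat_le l v hi]
  induction j using Nat.twoStepInduction with
  | zero => simpa [w] using h0 _ le_rfl
  | one =>
    have := cat_add (n + 1) 0 l v
    rw [add_zero] at this
    rw [u_add_two, h0 _ le_rfl, h0 _ (by omega), this]
    simp [w]
  | more i h1 h2 =>
    rw [← add_assoc, u_add_two, h1, add_assoc (n + 1), h2, cat_add, u_add_two, w_add_two]
    ring

lemma N_cat_add (n : ℕ) (l v : ℕ → ℝ) (j : ℕ) :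
    N (cat (n + 1) l v) (n + 1 + j) = N l n * v 0 * N v j := by
  induction j with
  | zero =>
    have := cat_add (n + 1) 0 l v
    rw [add_zero] at this
    rw [add_zero, N_succ, this, N_congr (l' := l) fun i _ b => cat_lt l v (by omega)]
    simp
  | succ j ih => rw [← add_assoc, N_succ, ih, add_assoc (n + 1), cat_add, N_succ]; ring

/-- Haar weights -/
noncomputable def hw (l : ℕ → ℝ) (i : ℕ) : ℝ := u l i ^ 2 / N l i

lemma hw_congr {l l' : ℕ → ℝ} {b : ℕ} (h : ∀ i, 1 ≤ i → i ≤ b → l i = l' i) :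
    hw l b = hw l' b := by
  rw [hw, hw, u_congr (l' := l') fun i x y => h i x y.le, N_congr h]

end Pool.Agent.Work.MP_5c86b6_an.Lac
end

-- merged part: Pool.Agent.Work.MP_5c86b6_an.Lac.Cone
section
/-!
Finite stages and their positivity invariant.
-/

open Polynomial Finset

namespace Pool.Agent.Work.MP_5c86b6_an.Lac

/-- a finite system normalised at `1` -/
structure Base (l : ℕ → ℝ) (n : ℕ) : Prop where
  zero : l 0 = 0
  two : 2 ≤ n
  pos : ∀ i, 1 ≤ i → i < n → 0 < l i
  upos : ∀ i, i < n → 0 < u l i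
  uzero : u l n = 0

/-- strict positivity of the linearization coefficients when the tail `v` is appended -/
def Inv (l : ℕ → ℝ) (n : ℕ) (v : ℕ → ℝ) : Prop :=
  ∀ a b c, a ≤ b → b < n → b ≤ c → c ≤ a + b → (a + b + c) % 2 = 0 → 0 < E (cat n l v) a b c

lemma Inv.congr {l v v' : ℕ → ℝ} {n : ℕ} (h : Inv l n v) (hv : ∀ i, i < n → v i = v' i) :
    Inv l n v' := by
  intro a b c h1 h2 h3 h4 h5
  rw [← E_congr (l := cat n l v) fun i _ hi => ?_]
  · exact h a b c h1 h2 h3 h4 h5
  · simp only [cat]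
    split_ifs
    · rfl
    · exact hv _ (by omega)

section

variable {l v : ℕ → ℝ} {n : ℕ}

lemma N_cat_pos (hp : ∀ i, 1 ≤ i → i < n → 0 < l i) {c : ℕ} (hc : c < n) : 0 < N (cat n l v) c :=
  N_pos fun i h1 h2 => by rw [cat_lt l v (by omega)]; exact hp i h1 (by omega)

lemma Inv.pos (h : Inv l n v) (hp : ∀ i, 1 ≤ i → i < n → 0 < l i) {a b c : ℕ} (ha : a < n)
    (hb : b < n) (h1 : c ≤ a + b) (h2 : a ≤ b + c) (h3 : b ≤ a + c) (h4 : (a + b + c) % 2 = 0) :
    0 < E (cat n l v) a b c := by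
  wlog hab : a ≤ b generalizing a b
  · rw [E_comm]
    exact this hb ha (by omega) h3 h2 (by omega) (by omega)
  rcases le_or_gt b c with hc | hc
  · exact h a b c hab hb hc h1 h4
  · have h5 : 0 < E (cat n l v) a c b := by
      rcases le_total a c with h6 | h6
      · exact h a c b h6 (by omega) hc.le h3 (by omega)
      · rw [E_comm]
        exact h c a b h6 ha hab (by omega) (by omega)
    have h6 := mul_pos (N_cat_pos (v := v) hp hb) h5
    rw [← E_symm] at h6
    exact (mul_pos_iff_of_pos_left (N_cat_pos (v := v) hp (by omega))).1 h6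

lemma Inv.nonneg (h : Inv l n v) (hp : ∀ i, 1 ≤ i → i < n → 0 < l i) {a b : ℕ} (ha : a < n)
    (hb : b < n) (c : ℕ) : 0 ≤ E (cat n l v) a b c := by
  wlog hab : a ≤ b generalizing a b
  · rw [E_comm]
    exact this hb ha (by omega)
  by_cases h1 : a + b < c ∨ (a + b + c) % 2 = 1
  · exact (E_supp _ a b c h1).ge
  by_cases h2 : b ≤ a + c
  · exact (h.pos hp ha hb (by omega) (by omega) h2 (by omega)).le
  · have h3 := E_symm (cat n l v) a b c
    rw [E_supp _ a c b (by omega), mul_zero] at h3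
    exact ((mul_eq_zero.1 h3).resolve_left (N_cat_pos (v := v) hp (by omega)).ne').ge

end

/-- the block with spectrum `1, -1` -/
def one (i : ℕ) : ℝ := if i = 1 then 1 else 0

lemma mp_one_two : mp one 2 = X * X - 1 := by simp [mp_add_two one 0, one]

lemma base_one : Base one 2 where
  zero := by simp [one]
  two := le_rfl
  pos i h1 h2 := by rw [show i = 1 by omega]; simp [one]
  upos i h := by
    rcases (show i = 0 ∨ i = 1 by omega) with rfl | rfl <;> simp
  uzero := by simp [u, mp_one_two]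

/-- in the open cone of degree `d` -/
structure PS (v : ℕ → ℝ) (F : ℝ[X]) (d : ℕ) : Prop where
  supp : Supp v F d
  pos : ∀ c, c ≤ d → (c + d) % 2 = 0 → 0 < co v F c

lemma PS.nonneg {v F d} (h : PS v F d) (c : ℕ) : 0 ≤ co v F c := by
  by_cases h1 : d < c ∨ (c + d) % 2 = 1
  · exact (h.supp c h1).ge
  · exact (h.pos c (by omega) (by omega)).le

variable {l : ℕ → ℝ} {n : ℕ}

lemma Base.cat_zero (h : Base l n) (v : ℕ → ℝ) : cat n l v 0 = 0 := by
  rw [cat_lt l v (by have := h.two; omega), h.zero]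

lemma E_cat_two {a : ℕ} (hn : 1 ≤ n) (ha : a ≤ n) {T : ℕ → ℝ} (hT : T 0 = 0) (j k : ℕ) :
    E (cat n l T) a (n + j) (n + k) = co T (mp l a * mp T j) k := by
  rw [E, mp_cat_le l T ha, mp_cat_add hn l hT, mul_left_comm, co_cat_hi hn l hT]

lemma E_cat_three (hn : 1 ≤ n) {T : ℕ → ℝ} (hT : T 0 = 0) (j k c : ℕ) :
    E (cat n l T) (n + j) (n + k) (n + c) = co T (mp l n * (mp T j * mp T k)) c := by
  rw [E, mp_cat_add hn l hT, mp_cat_add hn l hT, ← co_cat_hi hn l hT,
    show mp l n * mp T j * (mp l n * mp T k) = mp l n * (mp l n * (mp T j * mp T k)) by ring]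

lemma co_low {L : ℕ → ℝ} {F : ℝ[X]} {d : ℕ} (h : ∀ c, c < d → co L F c = 0) (l' : ℕ → ℝ) (j c : ℕ)
    (hc : c + j < d) : co L (mp l' j * F) c = 0 := by
  induction j using Nat.twoStepInduction generalizing c with
  | zero => simpa using h c hc
  | one =>
    rw [mp_one, co_X_mul]
    cases c with
    | zero => rw [J_zero, h 1 (by omega), mul_zero]
    | succ c => rw [J_succ, h c (by omega), h (c + 2) (by omega)]; ring
  | more i h0 h1 =>
    rw [mp_add_two, sub_mul, mul_assoc, mul_assoc, map_sub, co_C_mul, Pi.sub_apply, Pi.smul_apply,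
      h0 c (by omega), co_X_mul]
    cases c with
    | zero => rw [J_zero, h1 1 (by omega)]; simp
    | succ c => rw [J_succ, h1 c (by omega), h1 (c + 2) (by omega)]; simp

lemma co_low_mp (L l' : ℕ → ℝ) {j k c : ℕ} (hc : c + j < k) : co L (mp l' j * mp L k) c = 0 :=
  co_low (d := k) (fun c hc => by rw [co_mp, Pi.single_apply, if_neg hc.ne]) l' j c hc

lemma inv_one : Inv one 2 one := by
  intro a b c h1 h2 h3 h4 h5
  rw [show c = a + b by omega, E, top_mp_mul]
  exact one_pos

lemma Base.hw_pos {j : ℕ} (h : Base l n) (hj : j < n) : 0 < hw l j :=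
  div_pos (pow_pos (h.upos j hj) 2) (N_pos fun i a b => h.pos i a (by omega))

lemma Base.cas (h : Base l (n + 2)) : u l (n + 1) * w l (n + 2) = N l (n + 1) := by
  have h1 := casorati l (n + 1)
  rwa [h.uzero, zero_mul, sub_zero] at h1

end Pool.Agent.Work.MP_5c86b6_an.Lac
end

-- merged part: Pool.Agent.Work.MP_5c86b6_an.Lac.Dir
section
/-!
Divided differences of the polynomials in the coefficients, and a good direction of perturbation.
-/

open Polynomial Finset Filter Topology

namespace Pool.Agent.Work.MP_5c86b6_an.Lac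

/-- divided difference of `mp` in the direction `d` -/
noncomputable def DD (l v d : ℕ → ℝ) : ℕ → ℝ[X]
  | 0 => 0
  | 1 => 0
  | (a + 2) => X * DD l v d (a + 1) - C (l (a + 1)) * DD l v d a + C (d (a + 1)) * mp v a

lemma DD_add_two (l v d : ℕ → ℝ) (a : ℕ) : DD l v d (a + 2) =
    X * DD l v d (a + 1) - C (l (a + 1)) * DD l v d a + C (d (a + 1)) * mp v a := rfl

lemma mp_sub {l v d : ℕ → ℝ} {x : ℝ} (h : ∀ i, 1 ≤ i → v i = l i + x * d i) (a : ℕ) :
    mp l a = mp v a + C x * DD l v d a := by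
  induction a using Nat.twoStepInduction with
  | zero => simp [DD]
  | one => simp [DD]
  | more a h0 h1 =>
    rw [mp_add_two, mp_add_two, DD_add_two, h0, h1, h _ (by omega), map_add, map_mul]
    ring

lemma DD_lin (l v d d' : ℕ → ℝ) (x y : ℝ) (a : ℕ) :
    DD l v (fun i => x * d i + y * d' i) a = C x * DD l v d a + C y * DD l v d' a := by
  induction a using Nat.twoStepInduction with
  | zero => simp [DD]
  | one => simp [DD]
  | more a h0 h1 =>
    rw [DD_add_two, DD_add_two, DD_add_two, h0, h1, map_add, map_mul, map_mul]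
    ring

lemma DD_single_lt (l v : ℕ → ℝ) {n a : ℕ} (h : a ≤ n) : DD l v (Pi.single n 1) a = 0 := by
  induction a using Nat.twoStepInduction with
  | zero => rfl
  | one => rfl
  | more a h0 h1 =>
    rw [DD_add_two, h0 (by omega), h1 (by omega), Pi.single_apply, if_neg (by omega)]
    simp

lemma DD_single (l v : ℕ → ℝ) (n : ℕ) : DD l v (Pi.single (n + 1) 1) (n + 2) = mp v n := by
  rw [DD_add_two, DD_single_lt l v le_rfl, DD_single_lt l v (by omega)]
  simp

lemma supp_DD (L l v d : ℕ → ℝ) (a : ℕ) : Supp L (DD l v d (a + 2)) a := by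
  have key : ∀ a c, (a < c + 2 ∨ (c + a) % 2 = 1) → co L (DD l v d a) c = 0 := by
    intro a
    induction a using Nat.twoStepInduction with
    | zero => intro c _; simp [DD]
    | one => intro c _; simp [DD]
    | more a h0 h1 =>
      intro c hc
      rw [DD_add_two, map_add, map_sub, co_C_mul, co_C_mul, co_X_mul, Pi.add_apply, Pi.sub_apply,
        Pi.smul_apply, Pi.smul_apply, h0 c (by omega), supp_mp L v a c (by omega)]
      cases c with
      | zero => rw [J_zero, h1 1 (by omega)]; simp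
      | succ c => rw [J_succ, h1 c (by omega), h1 (c + 2) (by omega)]; simp
  exact fun c hc => key _ c (by omega)

lemma param_DD {T : Type} (S : Subalgebra ℝ (T → ℝ)) {V l v : T → ℕ → ℝ} (d : ℕ → ℝ)
    (hV : ∀ i, (fun t => V t i) ∈ S) (hl : ∀ i, (fun t => l t i) ∈ S)
    (hv : ∀ i, (fun t => v t i) ∈ S) {F : T → ℝ[X]} (hF : ∀ c, (fun t => co (V t) (F t) c) ∈ S)
    (a c : ℕ) : (fun t => co (V t) (DD (l t) (v t) d a * F t) c) ∈ S := by
  induction a using Nat.twoStepInduction generalizing c with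
  | zero => simp only [DD, zero_mul, map_zero, Pi.zero_apply]; exact S.zero_mem
  | one => simp only [DD, zero_mul, map_zero, Pi.zero_apply]; exact S.zero_mem
  | more i h0 h1 =>
    simp only [DD_add_two, add_mul, sub_mul, mul_assoc, map_add, map_sub, co_C_mul, Pi.add_apply,
      Pi.sub_apply, Pi.smul_apply, smul_eq_mul]
    exact S.add_mem (S.sub_mem (param_X S hV h1 c) (S.mul_mem (hl _) (h0 c)))
      (S.mul_mem (S.algebraMap_mem (d (i + 1))) (param_mp S hV hv hF i c))

lemma contAt_DD_eval {T : Type} [TopologicalSpace T] {x : T} {l v : T → ℕ → ℝ} (d : ℕ → ℝ)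
    (hl : ∀ i, ContinuousAt (fun t => l t i) x) (hv : ∀ i, ContinuousAt (fun t => v t i) x)
    (a : ℕ) : ContinuousAt (fun t => (DD (l t) (v t) d a).eval 1) x := by
  induction a using Nat.twoStepInduction with
  | zero => simpa [DD] using continuousAt_const
  | one => simpa [DD] using continuousAt_const
  | more i h0 h1 =>
    simp only [DD_add_two, eval_add, eval_sub, eval_mul, eval_X, eval_C, one_mul]
    exact (h1.sub ((hl _).mul h0)).add (continuousAt_const.mul (contAt_u hv i))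

/-- rescaled coefficients of the derivative in a geometrically growing direction -/
def sc (l : ℕ → ℝ) (s : ℝ) : ℕ → ℕ → ℝ
  | 0 => fun _ => 0
  | 1 => fun _ => 0
  | (a + 2) => fun i => s * Nat.casesOn i 0 (sc l s (a + 1)) + l (i + 1) * sc l s (a + 1) (i + 1)
      - l (a + 1) * s * sc l s a i + if i = a then 1 else 0

lemma sc_add_two (l : ℕ → ℝ) (s : ℝ) (a i : ℕ) : sc l s (a + 2) i =
    s * Nat.casesOn i 0 (sc l s (a + 1)) + l (i + 1) * sc l s (a + 1) (i + 1)
      - l (a + 1) * s * sc l s a i + if i = a then 1 else 0 := rfl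

lemma sc_eq (l : ℕ → ℝ) {r : ℝ} (hr : r ≠ 0) (a i : ℕ) :
    sc l (r ^ 2) a i = r ^ (a + i) * co l (DD l l (fun j => (r ^ (2 * j))⁻¹) a) i := by
  induction a using Nat.twoStepInduction generalizing i with
  | zero => simp [sc, DD]
  | one => simp [sc, DD]
  | more a h0 h1 =>
    rw [sc_add_two, DD_add_two, map_add, map_sub, co_C_mul, co_C_mul, co_X_mul, co_mp, Pi.add_apply,
      Pi.sub_apply, Pi.smul_apply, Pi.smul_apply, Pi.single_apply, h0, h1, smul_eq_mul, smul_eq_mul]
    have e : (if i = a then 1 else 0 : ℝ) =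
        r ^ (a + 2 + i) * ((r ^ (2 * (a + 1)))⁻¹ * if i = a then 1 else 0) := by
      split_ifs with h
      · rw [h, mul_one, show a + 2 + a = 2 * (a + 1) by ring, mul_inv_cancel₀ (pow_ne_zero _ hr)]
      · simp
    rw [mul_add (r ^ (a + 2 + i)), ← e]
    cases i with
    | zero => rw [J_zero]; simp only [Nat.rec_zero]; ring
    | succ i => rw [J_succ]; simp only [h1]; ring

lemma sc_cont (l : ℕ → ℝ) (a i : ℕ) : Continuous fun s => sc l s a i := by
  induction a using Nat.twoStepInduction generalizing i with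
  | zero => exact continuous_const
  | one => exact continuous_const
  | more a h0 h1 =>
    simp only [sc_add_two]
    refine (((continuous_id.mul ?_).add (continuous_const.mul (h1 _))).sub
      ((continuous_const.mul continuous_id).mul (h0 _))).add continuous_const
    cases i with
    | zero => exact continuous_const
    | succ i => exact h1 i

lemma sc_zero {l : ℕ → ℝ} {n : ℕ} (hp : ∀ i, 1 ≤ i → i < n → 0 < l i) (a : ℕ) (ha : a < n)
    (i : ℕ) : (a < i → sc l 0 (a + 2) i = 0) ∧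
      (i ≤ a → (i + a) % 2 = 0 → 0 < sc l 0 (a + 2) i) := by
  induction a generalizing i with
  | zero =>
    rw [sc_add_two]
    refine ⟨fun h => ?_, fun h _ => ?_⟩
    · simp [sc, h.ne']
    · simp [sc, show i = 0 by omega]
  | succ a ih =>
    rw [sc_add_two]
    simp only [zero_mul, mul_zero, zero_add, sub_zero]
    refine ⟨fun h => ?_, fun h h' => ?_⟩
    · rw [(ih (by omega) (i + 1)).1 (by omega), if_neg h.ne']; simp
    · split_ifs with h1
      · rw [(ih (by omega) (i + 1)).1 (by omega)]; simp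
      · rw [add_zero]
        exact mul_pos (hp _ (by omega) (by omega)) ((ih (by omega) (i + 1)).2 (by omega) (by omega))

lemma exists_dir₀ {l : ℕ → ℝ} {n : ℕ} (hp : ∀ i, 1 ≤ i → i < n → 0 < l i) :
    ∃ d : ℕ → ℝ, ∀ a, a < n → PS l (DD l l d (a + 2)) a := by
  have e1 : ∀ᶠ r in 𝓝 (0 : ℝ), ∀ a ∈ range n, ∀ i ∈ range (a + 1), (i + a) % 2 = 0 →
      0 < sc l (r ^ 2) (a + 2) i := by
    refine (eventually_all_finset _).2 fun a ha => (eventually_all_finset _).2 fun i hi => ?_
    have := mem_range.1 hi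
    by_cases h : (i + a) % 2 = 0
    · have c1 : ContinuousAt (fun r : ℝ => sc l (r ^ 2) (a + 2) i) 0 :=
        ((sc_cont l (a + 2) i).comp (continuous_pow 2)).continuousAt
      refine (c1.eventually (lt_mem_nhds ?_)).mono fun r hr _ => hr
      simpa using (sc_zero hp a (mem_range.1 ha) i).2 (by omega) h
    · exact Eventually.of_forall fun r h' => absurd h' h
  obtain ⟨r, h1, h2⟩ := ((e1.filter_mono (nhdsWithin_le_nhds (s := Set.Ioi 0))).and
    self_mem_nhdsWithin).exists
  have hr : 0 < r := h2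
  refine ⟨fun j => (r ^ (2 * j))⁻¹, fun a ha => ⟨supp_DD _ _ _ _ a, fun c h3 h4 => ?_⟩⟩
  have := h1 a (mem_range.2 ha) c (mem_range.2 (by omega)) h4
  rw [sc_eq l hr.ne'] at this
  exact (mul_pos_iff_of_pos_left (pow_pos hr _)).1 this

lemma Base.triple {l : ℕ → ℝ} {n j k c : ℕ} (hl : Base l (n + 2)) (hS : Inv l (n + 2) l)
    (hk : k < n + 2) (hc : c + j < k) (hp : (j + k + c) % 2 = 0) :
    0 < co (cat (n + 2) l (cat (n + 2) l l)) (mp l n * (mp l j * mp l k)) (n + 2 + c) := by
  have hI : Inv l (n + 2) (cat (n + 2) l l) := hS.congr fun i hi => (cat_lt _ _ hi).symm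
  obtain ⟨T, hT⟩ : ∃ T, T = cat (n + 2) l (cat (n + 2) l l) := ⟨_, rfl⟩
  have mT : ∀ i, i ≤ n + 2 → mp T i = mp l i := fun i hi => by rw [hT, mp_cat_le _ _ hi]
  rw [← hT, mul_comm, ← mT j (by omega), ← mT k hk.le, ← mT n (by omega),
    co_mul_expand T T (d := j + k + 1) fun c hc => E_supp T j k c (Or.inl hc)]
  refine sum_pos' (fun p hp => mul_nonneg ?_ ?_) ⟨k - j, mem_range.2 (by omega), mul_pos ?_ ?_⟩
  · rw [← E, hT]
    exact hI.nonneg hl.pos (by omega) hk p
  · have := mem_range.1 hp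
    rw [← E, hT]
    rcases lt_or_ge p (n + 2) with h | h
    · exact hI.nonneg hl.pos h (by omega) _
    · obtain ⟨p, rfl⟩ := Nat.exists_eq_add_of_le h
      rw [E_comm, E_cat_two (by omega) (by omega) (hl.cat_zero _),
        ← mp_cat_le l l (show n ≤ n + 2 by omega)]
      exact hS.nonneg hl.pos (by omega) (by omega) _
  · rw [← E, hT]
    exact hI.pos hl.pos (by omega) hk (by omega) (by omega) (by omega) (by omega)
  · rw [← E, hT]
    exact hI.pos hl.pos (by omega) (by omega) (by omega) (by omega) (by omega) (by omega)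

theorem exists_dir {l : ℕ → ℝ} {n : ℕ} (hl : Base l (n + 2)) (hS : Inv l (n + 2) l) {ε : ℝ}
    (hε : 0 < ε) : ∃ d : ℕ → ℝ, (∀ a, a ≤ n → PS l (DD l l d (a + 2)) a) ∧
      (∀ j k c, k < n + 2 → c + j < k → (j + k + c) % 2 = 0 →
        co (cat (n + 2) l l) (DD l l d k * mp l j) c < co (cat (n + 2) l (cat (n + 2) l l))
          (DD l l d (n + 2) * (mp l j * mp l k)) (n + 2 + c)) ∧
      0 < u l n - (DD l l d (n + 2)).eval 1 ∧
      u l n / (u l n - (DD l l d (n + 2)).eval 1) < 1 + ε := by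
  obtain ⟨d, hd⟩ := exists_dir₀ hl.pos
  have un := hl.upos n (by omega)
  have e1 : ∀ᶠ y in 𝓝 (0 : ℝ), ∀ k ∈ range (n + 2), ∀ j ∈ range k, ∀ c ∈ range (k - j),
      (j + k + c) % 2 = 0 → y * co (cat (n + 2) l l) (DD l l d k * mp l j) c <
        co (cat (n + 2) l (cat (n + 2) l l)) (mp l n * (mp l j * mp l k)) (n + 2 + c) +
        y * co (cat (n + 2) l (cat (n + 2) l l))
          (DD l l d (n + 2) * (mp l j * mp l k)) (n + 2 + c) := by
    refine (eventually_all_finset _).2 fun k hk => (eventually_all_finset _).2 fun j _ =>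
      (eventually_all_finset _).2 fun c hc => ?_
    have := mem_range.1 hc
    by_cases h : (j + k + c) % 2 = 0
    · refine (ContinuousAt.eventually_lt (by fun_prop) (by fun_prop) ?_).mono fun y hy _ => hy
      simpa using hl.triple hS (mem_range.1 hk) (by omega) h
    · exact Eventually.of_forall fun r h' => absurd h' h
  obtain ⟨y, h1, h2⟩ := ((e1.filter_mono (nhdsWithin_le_nhds (s := Set.Ioi 0))).and
    self_mem_nhdsWithin).exists
  have hy : 0 < y := h2
  obtain ⟨K, hK⟩ : ∃ K, K = u l n + y * (DD l l d (n + 2)).eval 1 := ⟨_, rfl⟩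
  have e2 : ∀ᶠ t in 𝓝 (0 : ℝ), 0 < u l n - t * K :=
    ContinuousAt.eventually_lt (by fun_prop) (by fun_prop) (by simpa using un)
  have e3 : ∀ᶠ t in 𝓝 (0 : ℝ), u l n < (1 + ε) * (u l n - t * K) :=
    ContinuousAt.eventually_lt (by fun_prop) (by fun_prop) (by simpa using by nlinarith)
  obtain ⟨t, ⟨h3, h4⟩, h5⟩ := (((e2.and e3).filter_mono (nhdsWithin_le_nhds (s := Set.Ioi 0))).and
    self_mem_nhdsWithin).exists
  have ht : 0 < t := h5
  have e4 : (DD l l (fun i => t * (Pi.single (n + 1) 1 : ℕ → ℝ) i + t * y * d i) (n + 2)).eval 1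
      = t * K := by
    rw [DD_lin, DD_single, hK, u]
    simp only [eval_add, eval_mul, eval_C]
    ring
  refine ⟨fun i => t * (Pi.single (n + 1) 1 : ℕ → ℝ) i + t * y * d i,
    fun a ha => ⟨supp_DD _ _ _ _ a, fun c h6 h7 => ?_⟩, fun j k c h6 h7 h8 => ?_, ?_, ?_⟩
  · rw [DD_lin, map_add, co_C_mul, co_C_mul, Pi.add_apply, Pi.smul_apply, Pi.smul_apply]
    refine add_pos_of_nonneg_of_pos (mul_nonneg ht.le ?_)
      (mul_pos (mul_pos ht hy) ((hd a (by omega)).pos c h6 h7))
    rcases ha.eq_or_lt with rfl | ha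
    · rw [DD_single, co_mp, Pi.single_apply]
      split_ifs <;> norm_num
    · rw [DD_single_lt l l (by omega)]
      simp
  · have := mul_lt_mul_of_pos_left (h1 k (mem_range.2 h6) j (mem_range.2 (by omega)) c
      (mem_range.2 (by omega)) h8) ht
    rw [DD_lin, DD_lin, DD_single, DD_single_lt l l (by omega)]
    simp only [mul_zero, zero_add, add_mul, mul_assoc, map_add, co_C_mul, Pi.add_apply,
      Pi.smul_apply, smul_eq_mul]
    linarith
  · rwa [e4]
  · rwa [e4, div_lt_iff₀ h3]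

end Pool.Agent.Work.MP_5c86b6_an.Lac
end

-- merged part: Pool.Agent.Work.MP_5c86b6_an.Lac.Double
section
/-!
Doubling: a slightly perturbed copy of a finite system is attached to it with a weak coupling.
-/

open Polynomial Finset Filter Topology

namespace Pool.Agent.Work.MP_5c86b6_an.Lac

/-- lower the entry `i` by `x` -/
def dec (l : ℕ → ℝ) (i : ℕ) (x : ℝ) (j : ℕ) : ℝ := if j = i then l j - x else l j

/-- the attached block with its coupling constant -/
def blk (l d : ℕ → ℝ) (i : ℕ) (p : ℝ × ℝ) (j : ℕ) : ℝ :=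
  if j = 0 then p.2 else dec l i p.1 j + p.1 * d j

lemma dec_zero (l : ℕ → ℝ) (i : ℕ) : dec l i 0 = l := by
  funext j; simp [dec]

lemma mp_dec_le (l : ℕ → ℝ) {i j : ℕ} (x : ℝ) (h : j ≤ i) : mp (dec l i x) j = mp l j :=
  mp_congr fun k _ hk => if_neg (by omega)

lemma mp_dec_top (l : ℕ → ℝ) (i : ℕ) (x : ℝ) :
    mp (dec l (i + 1) x) (i + 2) = mp l (i + 2) + C x * mp l i := by
  rw [mp_add_two, mp_add_two, mp_dec_le l x le_rfl, mp_dec_le l x (by omega), dec, if_pos rfl,
    map_sub]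
  ring

lemma blk_snd (l d : ℕ → ℝ) (i : ℕ) (x y : ℝ) (j : ℕ) (h : 1 ≤ j) :
    blk l d i (x, y) j = blk l d i (x, 0) j := by
  simp only [blk, if_neg (show j ≠ 0 by omega)]

lemma mp_blk (l d : ℕ → ℝ) (i : ℕ) (x : ℝ) (a : ℕ) : mp (dec l i x) a =
    mp (blk l d i (x, 0)) a + C x * DD (dec l i x) (blk l d i (x, 0)) d a :=
  mp_sub (fun j hj => by simp only [blk, if_neg (show j ≠ 0 by omega)]) a

lemma w_congr {l l' : ℕ → ℝ} (h : ∀ i, 1 ≤ i → l i = l' i) (b : ℕ) : w l b = w l' b := by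
  induction b using Nat.twoStepInduction with
  | zero => rfl
  | one => rfl
  | more i h0 h1 => rw [w_add_two, w_add_two, h0, h1, h _ (by omega)]

lemma param_cat {T : Type} (S : Subalgebra ℝ (T → ℝ)) {a b : T → ℕ → ℝ}
    (ha : ∀ i, (fun t => a t i) ∈ S) (hb : ∀ i, (fun t => b t i) ∈ S) (n i : ℕ) :
    (fun t => cat n (a t) (b t) i) ∈ S := by
  unfold cat
  split_ifs
  exacts [ha _, hb _]

lemma contAt_mp {V l : ℝ → ℕ → ℝ} (hV : ∀ i, ContinuousAt (fun t => V t i) 0)
    (hl : ∀ i, ContinuousAt (fun t => l t i) 0) {F : ℝ → ℝ[X]}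
    (hF : ∀ c, ContinuousAt (fun t => co (V t) (F t) c) 0) (a c : ℕ) :
    ContinuousAt (fun t => co (V t) (mp (l t) a * F t) c) 0 :=
  param_mp (contAlg (0 : ℝ)) hV hl hF a c

lemma contAt_DD {V l v : ℝ → ℕ → ℝ} (d : ℕ → ℝ) (hV : ∀ i, ContinuousAt (fun t => V t i) 0)
    (hl : ∀ i, ContinuousAt (fun t => l t i) 0) (hv : ∀ i, ContinuousAt (fun t => v t i) 0)
    {F : ℝ → ℝ[X]} (hF : ∀ c, ContinuousAt (fun t => co (V t) (F t) c) 0) (a c : ℕ) :
    ContinuousAt (fun t => co (V t) (DD (l t) (v t) d a * F t) c) 0 :=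
  param_DD (contAlg (0 : ℝ)) d hV hl hv hF a c

lemma diffAt_cat {p : ℝ × ℝ} {a b : ℝ × ℝ → ℕ → ℝ}
    (ha : ∀ i, DifferentiableAt ℝ (fun t => a t i) p)
    (hb : ∀ i, DifferentiableAt ℝ (fun t => b t i) p) (n i : ℕ) :
    DifferentiableAt ℝ (fun t => cat n (a t) (b t) i) p :=
  param_cat (diffAlg p) ha hb n i

lemma deriv_mul_cont {f : ℝ → ℝ} (hf : ContinuousAt f 0) :
    HasDerivAt (fun x => x * f x) (f 0) 0 := by
  rw [hasDerivAt_iff_tendsto_slope_zero]
  refine (hf.tendsto.mono_left nhdsWithin_le_nhds).congr' ?_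
  filter_upwards [self_mem_nhdsWithin] with t ht
  have : t ≠ 0 := ht
  simp only [zero_add, zero_mul, sub_zero, smul_eq_mul]
  field_simp

lemma ev_pos_of_deriv {f : ℝ → ℝ} {a : ℝ} (hf : HasDerivAt f a 0) (h0 : f 0 = 0) (ha : 0 < a) :
    ∀ᶠ x in 𝓝[>] 0, 0 < f x := by
  rw [hasDerivAt_iff_tendsto_slope_zero] at hf
  filter_upwards [(hf.mono_left (nhdsGT_le_nhdsNE 0)).eventually (lt_mem_nhds ha),
    self_mem_nhdsWithin] with t h1 h2
  rw [zero_add, h0, sub_zero, smul_eq_mul] at h1
  exact (mul_pos_iff_of_pos_left (inv_pos.2 h2)).1 h1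

lemma ev_pos_first {g : ℝ × ℝ → ℝ} (hg : DifferentiableAt ℝ g (0, 0)) {k A : ℝ → ℝ}
    (hk : ContinuousAt k 0) (hA : ContinuousAt A 0) (A0 : 0 < A 0) (e : ∀ x, g (x, 0) = x * A x) :
    ∀ᶠ x in 𝓝[>] 0, 0 < g (x, x * (x * k x)) := by
  have dγ : HasDerivAt (fun x : ℝ => ((x, x * (x * k x)) : ℝ × ℝ)) (1, 0) 0 := by
    have := deriv_mul_cont (f := fun x => x * k x) (continuousAt_id.mul hk)
    rw [zero_mul] at this
    exact (hasDerivAt_id (0 : ℝ)).prodMk this
  have d1 := HasFDerivAt.comp_hasDerivAt_of_eq (0 : ℝ) hg.hasFDerivAt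
    ((hasDerivAt_id (0 : ℝ)).prodMk (hasDerivAt_const (0 : ℝ) (0 : ℝ))) (by simp)
  have d2 := HasFDerivAt.comp_hasDerivAt_of_eq (0 : ℝ) hg.hasFDerivAt dγ (by simp)
  have d3 := deriv_mul_cont hA
  rw [← funext e] at d3
  rw [d1.unique d3] at d2
  refine ev_pos_of_deriv d2 ?_ A0
  simp only [zero_mul, e]

lemma E_cat_indep {n i j k : ℕ} (l : ℕ → ℝ) {v v' : ℕ → ℝ} (hv : v 0 = 0) (hv' : v' 0 = 0)
    (hi : i ≤ n) (hj : j ≤ n) (hk : k < n) : E (cat n l v) i j k = E (cat n l v') i j k := by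
  rw [E, E, mp_cat_le l v hi, mp_cat_le l v hj, mp_cat_le l v' hi, mp_cat_le l v' hj,
    co_cat_indep l hv hv' _ hk]

lemma Inv.ps_mul {l v : ℕ → ℝ} {n a j k : ℕ} {G : ℝ[X]} (hI : Inv l n v)
    (hp : ∀ i, 1 ≤ i → i < n → 0 < l i) (hG : PS l G a) (ha : a < n) (h1 : j ≤ k) (h2 : k < n)
    (h3 : k ≤ a + j) (h4 : (a + j + k) % 2 = 0) : 0 < co (cat n l v) (G * mp l j) k := by
  rw [co_mul_expand l _ (d := a + 1) fun c hc => hG.supp c (Or.inl hc)]
  have e : ∀ i, i < n → co (cat n l v) (mp l i * mp l j) k = E (cat n l v) i j k := fun i hi => by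
    rw [E, mp_cat_le l v hi.le, mp_cat_le l v (show j ≤ n by omega)]
  refine sum_pos' (fun i hi => mul_nonneg (hG.nonneg i) ?_)
    ⟨k - j, mem_range.2 (by omega), mul_pos (hG.pos _ (by omega) (by omega)) ?_⟩
  · have := mem_range.1 hi
    rw [e i (by omega)]
    exact hI.nonneg hp (by omega) (by omega) k
  · rw [e _ (by omega)]
    exact hI.pos hp (by omega) (by omega) (by omega) (by omega) (by omega) (by omega)

lemma Inv.ps_mul₂ {l v : ℕ → ℝ} {n j k c : ℕ} {G : ℝ[X]} (hI : Inv l (n + 2) v) (hv : v 0 = 0)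
    (hp : ∀ i, 1 ≤ i → i < n + 2 → 0 < l i) (hG : PS l G n) (h1 : j ≤ k) (h2 : k ≤ c)
    (h3 : c < n + 2) (h4 : (n + j + k + c) % 2 = 0) :
    0 < co (cat (n + 2) l v) (G * (mp l j * mp l k)) c := by
  obtain ⟨T, hT⟩ : ∃ T, T = cat (n + 2) l v := ⟨_, rfl⟩
  have mT : ∀ i, i ≤ n + 2 → mp T i = mp l i := fun i hi => by rw [hT, mp_cat_le _ _ hi]
  have g : ∀ i, i < n + 2 → 0 ≤ co T (mp l i * (mp l j * mp l k)) c ∧
      (i = c - (k - j) → 0 < co T (mp l i * (mp l j * mp l k)) c) := fun i hi => by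
    rw [mul_comm, ← mT j (by omega), ← mT k (by omega), ← mT i hi.le,
      co_mul_expand T T (d := j + k + 1) fun c hc => E_supp T j k c (Or.inl hc)]
    have g1 : ∀ p ∈ range (j + k + 1), 0 ≤ E T j k p * E T p i c := fun p _ => by
      rcases lt_or_ge p (n + 2) with h | h
      · rw [hT]
        exact mul_nonneg (hI.nonneg hp (by omega) (by omega) p) (hI.nonneg hp h hi c)
      · obtain ⟨p, rfl⟩ := Nat.exists_eq_add_of_le h
        rw [E.eq_1 T (n + 2 + p), hT, mp_cat_add (by omega) l hv, mul_assoc,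
          co_cat_lo l hv _ h3, mul_zero]
    refine ⟨sum_nonneg g1, fun h => sum_pos' g1 ⟨k - j, mem_range.2 (by omega), ?_⟩⟩
    rw [hT]
    exact mul_pos (hI.pos hp (by omega) (by omega) (by omega) (by omega) (by omega) (by omega))
      (hI.pos hp (by omega) (by omega) (by omega) (by omega) (by omega) (by omega))
  rw [← hT, co_mul_expand l T (d := n + 1) fun c hc => hG.supp c (Or.inl hc)]
  exact sum_pos' (fun i hi => mul_nonneg (hG.nonneg i) (g i (by have := mem_range.1 hi; omega)).1)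
    ⟨c - (k - j), mem_range.2 (by omega), mul_pos (hG.pos _ (by omega) (by omega))
      ((g _ (by omega)).2 rfl)⟩

theorem double {l : ℕ → ℝ} {n : ℕ} (hl : Base l (n + 2)) (hS : Inv l (n + 2) l) {ε : ℝ}
    (hε : 0 < ε) :
    ∃ L : ℝ → ℕ → ℝ, (∀ x i, i < n + 1 → L x i = l i) ∧
      (∀ᶠ x in 𝓝[>] 0, Base (L x) (n + 2 + (n + 2)) ∧ Inv (L x) (n + 2 + (n + 2)) (L x)) ∧
      (∀ i, i < n + 2 → Tendsto (fun x => hw (L x) i) (𝓝[>] 0) (𝓝 (hw l i))) ∧
      ∃ H, H < 1 + ε ∧ ∀ j, j < n + 2 →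
        Tendsto (fun x => hw (L x) (n + 2 + j)) (𝓝[>] 0) (𝓝 (H * hw l j)) := by
  obtain ⟨d, C1, C2, C3, C4⟩ := exists_dir hl hS hε
  obtain ⟨B, hB⟩ : ∃ B : ℝ → ℕ → ℝ, B = fun x => blk l d (n + 1) (x, 0) := ⟨_, rfl⟩
  obtain ⟨L, hL⟩ : ∃ L : ℝ × ℝ → ℕ → ℝ,
      L = fun p => cat (n + 2) (dec l (n + 1) p.1) (blk l d (n + 1) p) := ⟨_, rfl⟩
  obtain ⟨D, hD⟩ : ∃ D : ℝ → ℕ → ℝ[X], D = fun x => DD (dec l (n + 1) x) (B x) d := ⟨_, rfl⟩
  obtain ⟨k, hk⟩ : ∃ k : ℝ → ℝ, k = fun x => u l n * (u l n - (D x (n + 2)).eval 1) /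
      (u l (n + 1) * w (B x) (n + 2)) := ⟨_, rfl⟩
  have b0 : B 0 = l := by
    funext j
    simp only [hB, blk, dec_zero]
    split_ifs with h
    · rw [h, hl.zero]
    · simp
  have Bz : ∀ x, B x 0 = 0 := fun x => by simp only [hB, blk, if_pos]
  have D0 : D 0 = DD l l d := by simp only [hD, b0, dec_zero]
  have Lx : ∀ x, L (x, 0) = cat (n + 2) (dec l (n + 1) x) (B x) := fun x => by simp only [hL, hB]
  have L0 : L (0, 0) = cat (n + 2) l l := by rw [Lx, dec_zero, b0]
  have mD : ∀ x a, mp (dec l (n + 1) x) a = mp (B x) a + C x * D x a := fun x a => by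
    simp only [hD, hB, ← mp_blk]
  have un := hl.upos n (by omega)
  have un1 := hl.upos (n + 1) (by omega)
  have n1 : 0 < N l (n + 1) := N_pos fun i a b => hl.pos i a (by omega)
  have wm : 0 < w l (n + 2) := (mul_pos_iff_of_pos_left un1).1 (by rw [hl.cas]; exact n1)
  have dB : ∀ p i, DifferentiableAt ℝ (fun q => blk l d (n + 1) q i) p := fun p i => by
    unfold blk dec
    split_ifs <;> fun_prop
  have dD : ∀ p i, DifferentiableAt ℝ (fun q : ℝ × ℝ => dec l (n + 1) q.1 i) p :=
    fun p i => by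
      unfold dec
      split_ifs <;> fun_prop
  have dL : ∀ p i, DifferentiableAt ℝ (fun q => L q i) p := fun p i => by
    rw [hL]
    exact diffAt_cat (dD p) (dB p) _ i
  have c0 : ∀ {f : ℝ × ℝ → ℝ}, ContinuousAt f (0, 0) → ContinuousAt (fun x : ℝ => f (x, 0)) 0 :=
    fun hf => ContinuousAt.comp (f := fun x : ℝ => ((x, 0) : ℝ × ℝ)) hf (by fun_prop)
  have cB : ∀ i, ContinuousAt (fun x : ℝ => B x i) 0 := fun i => by
    rw [hB]
    exact c0 (f := fun q => blk l d (n + 1) q i) (dB _ i).continuousAt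
  have cD : ∀ i, ContinuousAt (fun x : ℝ => dec l (n + 1) x i) 0 := fun i =>
    c0 (f := fun q : ℝ × ℝ => dec l (n + 1) q.1 i) (dD _ i).continuousAt
  have cL0 : ∀ i, ContinuousAt (fun x : ℝ => L (x, 0) i) 0 := fun i =>
    c0 (f := fun q => L q i) (dL _ i).continuousAt
  have cT : ∀ i, ContinuousAt (fun x : ℝ => cat (n + 2) (B x) (L (x, 0)) i) 0 :=
    param_cat (contAlg (0 : ℝ)) (a := B) (b := fun x => L (x, 0)) cB cL0 _
  have cw := fun j => contAt_w cB j
  have ck : ContinuousAt k 0 := by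
    rw [hk, hD]
    refine (continuousAt_const.mul (continuousAt_const.sub (contAt_DD_eval d cD cB _))).div
      (continuousAt_const.mul (cw _)) ?_
    simp only [b0]
    positivity
  have k0 : k 0 = u l n * (u l n - (DD l l d (n + 2)).eval 1) / (u l (n + 1) * w l (n + 2)) := by
    simp only [hk, b0, D0]
  have kp : 0 < k 0 := by rw [k0]; positivity
  have cγ : ∀ {f : ℝ × ℝ → ℝ}, ContinuousAt f (0, 0) →
      ContinuousAt (fun x : ℝ => f (x, x * (x * k x))) 0 := fun hf =>
    ContinuousAt.comp (f := fun x : ℝ => ((x, x * (x * k x)) : ℝ × ℝ)) (by simpa using hf)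
      (continuousAt_id.prodMk (continuousAt_id.mul (continuousAt_id.mul ck)))
  have cL : ∀ i, ContinuousAt (fun x : ℝ => L (x, x * (x * k x)) i) 0 := fun i =>
    cγ (f := fun q => L q i) (dL _ i).continuousAt
  have Lz : ∀ p, L p 0 = 0 := fun p => by
    simp only [hL]
    rw [cat_lt _ _ (by omega), dec, if_neg (by omega), hl.zero]
  have ud : ∀ x, u (dec l (n + 1) x) (n + 2) = x * u l n := fun x => by
    rw [u, mp_dec_top, eval_add, eval_mul, eval_C, ← u, ← u, hl.uzero, zero_add]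
  have uL : ∀ x j, u (L (x, x * (x * k x))) (n + 2 + j) =
      x * (u l n * u (B x) j - x * k x * u l (n + 1) * w (B x) j) := fun x j => by
    simp only [hL, hB]
    rw [u_cat_add (n + 1), ud, u_congr fun i hi _ => blk_snd l d _ x _ i hi,
      w_congr fun i hi => blk_snd l d _ x _ i hi,
      u_congr (l := dec l (n + 1) x) (l' := l) fun i _ hi => if_neg (by omega)]
    rw [show blk l d (n + 1) (x, x * (x * k x)) 0 = x * (x * k x) from rfl]
    ring
  have ca : ∀ j, ContinuousAt (fun x => u l n * u (B x) j -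
      x * k x * u l (n + 1) * w (B x) j) 0 := fun j =>
    (continuousAt_const.mul (contAt_u cB j)).sub
      (((continuousAt_id.mul ck).mul continuousAt_const).mul (cw j))
  have evk : ∀ᶠ x in 𝓝[>] 0, 0 < k x :=
    (ck.eventually (lt_mem_nhds kp)).filter_mono nhdsWithin_le_nhds
  refine ⟨fun x => L (x, x * (x * k x)), fun x i hi => ?_, Eventually.and ?_ ?_, fun i hi => ?_,
    _, C4, fun j hj => ?_⟩
  · simp only [hL]
    rw [cat_lt _ _ (by omega), dec, if_neg (by omega)]
  · have e1 : ∀ᶠ x in 𝓝[>] 0, ∀ i ∈ range (n + 2 + (n + 2)), 1 ≤ i →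
        0 < L (x, x * (x * k x)) i := by
      refine (eventually_all_finset _).2 fun i hi => ?_
      have := mem_range.1 hi
      rcases eq_or_ne i (n + 2) with rfl | h
      · filter_upwards [evk, self_mem_nhdsWithin] with x h1 h2 _
        have h3 : 0 < x := h2
        simp only [hL]
        rw [cat, if_neg (lt_irrefl _), Nat.sub_self, blk, if_pos rfl]
        positivity
      by_cases h1 : 1 ≤ i
      · refine (((cL i).eventually (lt_mem_nhds ?_)).filter_mono nhdsWithin_le_nhds).mono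
          fun x hx _ => hx
        simp only [zero_mul, L0, cat]
        split_ifs
        · exact hl.pos i h1 (by omega)
        · exact hl.pos _ (by omega) (by omega)
      · exact Eventually.of_forall fun x h' => absurd h' h1
    have e2 : ∀ᶠ x in 𝓝[>] 0, ∀ i ∈ range (n + 2 + (n + 2)),
        0 < u (L (x, x * (x * k x))) i := by
      refine (eventually_all_finset _).2 fun i hi => ?_
      have := mem_range.1 hi
      rcases lt_or_ge i (n + 2) with h | h
      · refine Eventually.of_forall fun x => ?_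
        simp only [hL]
        rw [u, mp_cat_le _ _ h.le, mp_dec_le l _ (by omega)]
        exact hl.upos i h
      · obtain ⟨j, rfl⟩ := Nat.exists_eq_add_of_le h
        have h1 := hl.upos j (by omega)
        filter_upwards [((ca j).eventually (lt_mem_nhds
          (by simp only [zero_mul, sub_zero, b0]; positivity : (0 : ℝ) < _))).filter_mono
          nhdsWithin_le_nhds, self_mem_nhdsWithin] with x h2 h3
        rw [uL x j]
        exact mul_pos h3 h2
    have e3 : ∀ᶠ x in 𝓝[>] 0, 0 < w (B x) (n + 2) :=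
      ((cw (n + 2)).eventually (lt_mem_nhds (by simpa only [b0] using wm))).filter_mono
        nhdsWithin_le_nhds
    filter_upwards [e1, e2, e3] with x h1 h2 h3
    refine ⟨Lz _, by omega, fun i a b => h1 i (mem_range.2 b) a, fun i b => h2 i (mem_range.2 b), ?_⟩
    have e : u (B x) (n + 2) = x * (u l n - (D x (n + 2)).eval 1) := by
      have := congrArg (eval 1) (mD x (n + 2))
      rw [eval_add, eval_mul, eval_C, ← u, ← u, ud] at this
      linarith
    rw [uL x, e, hk]
    field_simp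
    ring
  · have hI : Inv l (n + 2) (cat (n + 2) l l) := hS.congr fun i hi => (cat_lt _ _ hi).symm
    have key : ∀ a b c, a ≤ b → b < n + 2 + (n + 2) → b ≤ c → c ≤ a + b → (a + b + c) % 2 = 0 →
        ∀ᶠ x in 𝓝[>] 0, 0 < E (cat (n + 2 + (n + 2)) (L (x, x * (x * k x)))
          (L (x, x * (x * k x)))) a b c := by
      intro a b c h1 h2 h3 h4 h5
      have dE : DifferentiableAt ℝ (fun q => E (cat (n + 2 + (n + 2)) (L q) (L q)) a b c)
          (0, 0) := diffAt_E (diffAt_cat (dL _) (dL _) _) a b c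
      have g0 : 0 < E (cat (n + 2) l (cat (n + 2) l (cat (n + 2) l l))) a b c →
          ∀ᶠ x in 𝓝[>] 0, 0 < E (cat (n + 2 + (n + 2)) (L (x, x * (x * k x)))
            (L (x, x * (x * k x)))) a b c := fun h => by
        refine ((cγ dE.continuousAt).eventually (lt_mem_nhds ?_)).filter_mono nhdsWithin_le_nhds
        simpa only [zero_mul, L0, cat_assoc] using h
      have eT : ∀ x, cat (n + 2 + (n + 2)) (L (x, 0)) (L (x, 0)) =
          cat (n + 2) (dec l (n + 1) x) (cat (n + 2) (B x) (L (x, 0))) := fun x => by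
        rw [← cat_assoc, ← Lx]
      have Tz : ∀ x, cat (n + 2) (B x) (L (x, 0)) 0 = 0 := fun x => by
        rw [cat_lt _ _ (by omega), Bz]
      have cm : ∀ {V : ℝ → ℕ → ℝ}, (∀ i, ContinuousAt (fun x => V x i) 0) → ∀ j c,
          ContinuousAt (fun x => co (V x) (mp (B x) j) c) 0 := fun hV j c => by
        have := contAt_mp hV cB (F := fun _ => 1) (contAt_co hV 1) j c
        simp only [mul_one] at this
        exact this
      rcases lt_or_ge b (n + 2) with hb | hb
      · exact g0 (hS.congr (fun i hi => (cat_lt _ _ hi).symm) a b c h1 hb h3 h4 h5)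
      obtain ⟨b, rfl⟩ := Nat.exists_eq_add_of_le hb
      obtain ⟨c, rfl⟩ := Nat.exists_eq_add_of_le (show n + 2 ≤ c by omega)
      rcases lt_or_ge a (n + 2) with ha | ha
      · by_cases h6 : a ≤ b + c
        · refine g0 ?_
          rw [E_cat_two (by omega) ha.le (hl.cat_zero _), ← mp_cat_le l (cat (n + 2) l l) ha.le]
          exact hI.pos hl.pos ha (by omega) (by omega) (by omega) (by omega) (by omega)
        refine ev_pos_first dE ck
          (A := fun x => co (cat (n + 2) (B x) (L (x, 0))) (D x a * mp (B x) b) c) ?_ ?_ fun x => ?_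
        · rw [hD]
          exact contAt_DD d cT cD cB (cm cT b) a c
        · obtain ⟨a, rfl⟩ := Nat.exists_eq_add_of_le' (show 2 ≤ a by omega)
          simp only [b0, D0, L0]
          exact hI.ps_mul hl.pos (C1 a (by omega)) (by omega) (by omega) (by omega) (by omega)
            (by omega)
        · have e := co_low_mp (cat (n + 2) (B x) (L (x, 0))) (B x) (show c + b < a by omega)
          rw [mp_cat_le _ _ ha.le, mul_comm] at e
          rw [eT, E_cat_two (by omega) ha.le (Tz x), mp_cat_le _ _ (show b ≤ n + 2 by omega), mD,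
            add_mul, map_add, Pi.add_apply, e, mul_assoc, co_C_mul]
          simp
      obtain ⟨a, rfl⟩ := Nat.exists_eq_add_of_le ha
      have cA : ∀ c, ContinuousAt (fun x => co (cat (n + 2) (B x) (L (x, 0)))
          (D x (n + 2) * (mp (B x) a * mp (B x) b)) c) 0 := fun c => by
        rw [hD]
        exact contAt_DD d cT cD cB (contAt_mp cT cB (cm cT b) a) (n + 2) c
      have eA : ∀ x, E (cat (n + 2 + (n + 2)) (L (x, 0)) (L (x, 0))) (n + 2 + a) (n + 2 + b)
          (n + 2 + c) = co (cat (n + 2) (B x) (L (x, 0)))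
            (mp (B x) (n + 2) * (mp (B x) a * mp (B x) b)) c + x * co (cat (n + 2) (B x) (L (x, 0)))
            (D x (n + 2) * (mp (B x) a * mp (B x) b)) c := fun x => by
        rw [eT, E_cat_three (by omega) (Tz x), mp_cat_le _ _ (show a ≤ n + 2 by omega),
          mp_cat_le _ _ (show b ≤ n + 2 by omega), mD, add_mul, map_add, Pi.add_apply, mul_assoc,
          co_C_mul]
        rfl
      rcases lt_or_ge c (n + 2) with hc | hc
      · refine ev_pos_first dE ck (cA c) ?_ fun x => ?_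
        · simp only [b0, D0, L0]
          exact hI.ps_mul₂ (hl.cat_zero l) hl.pos (C1 n le_rfl) (by omega) (by omega) hc (by omega)
        · rw [eA, co_cat_lo _ (Lz _) _ hc, zero_add]
      obtain ⟨c, rfl⟩ := Nat.exists_eq_add_of_le hc
      by_cases h6 : b ≤ c + a
      · refine g0 ?_
        rw [E_cat_three (by omega) (hl.cat_zero _), co_cat_hi (by omega) l (hl.cat_zero _),
          mp_cat_le l _ (show a ≤ n + 2 by omega), mp_cat_le l _ (show b ≤ n + 2 by omega),
          ← mp_cat_le l l (show a ≤ n + 2 by omega), ← mp_cat_le l l (show b ≤ n + 2 by omega)]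
        exact hS.pos hl.pos (by omega) (by omega) (by omega) (by omega) (by omega) (by omega)
      refine ev_pos_first dE ck (A := fun x => co (cat (n + 2) (B x) (L (x, 0)))
        (D x (n + 2) * (mp (B x) a * mp (B x) b)) (n + 2 + c) -
          co (L (x, 0)) (D x b * mp (B x) a) c) ((cA _).sub ?_) ?_ fun x => ?_
      · rw [hD]
        exact contAt_DD d cL0 cD cB (cm cL0 a) b c
      · simp only [b0, D0, L0]
        exact sub_pos.2 (C2 a b c (by omega) (by omega) (by omega))
      · have e := co_low_mp (L (x, 0)) (B x) (show c + a < b by omega)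
        have e' : mp (L (x, 0)) b = mp (B x) b + C x * D x b := by
          rw [Lx, mp_cat_le _ _ (show b ≤ n + 2 by omega), mD]
        rw [e', mul_add, map_add, mul_left_comm, co_C_mul, Pi.add_apply, Pi.smul_apply,
          smul_eq_mul, mul_comm _ (D x b)] at e
        rw [eA, co_cat_hi (by omega) _ (Lz _)]
        linarith
    have e1 : ∀ᶠ x in 𝓝[>] 0, ∀ a ∈ range (n + 2 + (n + 2)), ∀ b ∈ range (n + 2 + (n + 2)),
        ∀ c ∈ range (a + b + 1), a ≤ b → b ≤ c → (a + b + c) % 2 = 0 →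
        0 < E (cat (n + 2 + (n + 2)) (L (x, x * (x * k x))) (L (x, x * (x * k x)))) a b c := by
      refine (eventually_all_finset _).2 fun a _ => (eventually_all_finset _).2 fun b hb =>
        (eventually_all_finset _).2 fun c hc => ?_
      have := mem_range.1 hc
      by_cases h : a ≤ b ∧ b ≤ c ∧ (a + b + c) % 2 = 0
      · exact (key a b c h.1 (mem_range.1 hb) h.2.1 (by omega) h.2.2).mono fun x hx _ _ _ => hx
      · exact Eventually.of_forall fun x h1 h2 h3 => absurd ⟨h1, h2, h3⟩ h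
    filter_upwards [e1] with x hx a b c h1 h2 h3 h4 h5
    exact hx a (mem_range.2 (by omega)) b (mem_range.2 h2) c (mem_range.2 (by omega)) h1 h3 h5
  · have e : hw (cat (n + 2) l l) i = hw l i := hw_congr fun j _ b => cat_lt l l (by omega)
    have : ContinuousAt (fun x => hw (L (x, x * (x * k x))) i) 0 := by
      refine ((contAt_u cL i).pow 2).div (contAt_N cL i) ?_
      simp only [zero_mul, L0]
      exact (N_cat_pos hl.pos hi).ne'
    have := this.tendsto
    simp only [zero_mul, L0, e] at this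
    exact this.mono_left nhdsWithin_le_nhds
  · have n2 : 0 < N l j := N_pos fun i a b => hl.pos i a (by omega)
    have t1 := (((ca j).pow 2).div (((contAt_N cD (n + 1)).mul ck).mul (contAt_N cB j)) (by
      simp only [Pi.mul_apply, dec_zero, b0]
      positivity)).tendsto.mono_left (nhdsWithin_le_nhds (s := Set.Ioi 0))
    simp only [Pi.div_apply, Pi.pow_apply, Pi.mul_apply, dec_zero, b0, zero_mul,
      sub_zero] at t1
    convert t1.congr' ?_ using 2
    · rw [k0, hw, hl.cas]
      field_simp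
    · filter_upwards [self_mem_nhdsWithin] with x hx
      have h3 : x ≠ 0 := ne_of_gt hx
      simp only [Pi.div_apply, Pi.pow_apply, Pi.mul_apply]
      rw [hw, uL x j]
      simp only [hL, hB]
      rw [N_cat_add (n + 1), N_congr fun i hi _ => blk_snd l d _ x (x * (x * k x)) i hi,
        show blk l d (n + 1) (x, x * (x * k x)) 0 = x * (x * k x) from rfl]
      rw [mul_pow x, show N (dec l (n + 1) x) (n + 1) * (x * (x * k x)) *
        N (blk l d (n + 1) (x, 0)) j = x ^ 2 * (N (dec l (n + 1) x) (n + 1) * k x *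
          N (blk l d (n + 1) (x, 0)) j) by ring, mul_div_mul_left _ _ (pow_ne_zero 2 h3)]

end Pool.Agent.Work.MP_5c86b6_an.Lac
end

-- merged part: Pool.Agent.Work.MP_5c86b6_an.Lac.Main
section
/-!
Iterated doubling and the limiting coefficient sequence.
-/

open Polynomial Finset Filter Topology

namespace Pool.Agent.Work.MP_5c86b6_an.Lac

/-- a finite stage all of whose Haar weights are below `1 + ε` -/
structure Good (ε : ℝ) (n : ℕ) (l : ℕ → ℝ) : Prop where
  base : Base l (n + 2)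
  inv : Inv l (n + 2) l
  small : ∀ i, i < n + 2 → hw l i < 1 + ε

lemma good_one {ε : ℝ} (hε : 0 < ε) : Good ε 0 one where
  base := base_one
  inv := inv_one
  small i h := by
    rcases (show i = 0 ∨ i = 1 by omega) with rfl | rfl <;> simp [hw, N, one, hε]

lemma Good.step {ε : ℝ} {n : ℕ} {l : ℕ → ℝ} (h : Good ε n l) :
    ∃ l', Good ε (n + 2 + n) l' ∧ ∀ i, i ≤ n → l' i = l i := by
  have e1 : ∀ᶠ e in 𝓝 (0 : ℝ), ∀ j ∈ range (n + 2), (1 + e) * hw l j < 1 + ε :=
    (eventually_all_finset _).2 fun j hj => ContinuousAt.eventually_lt (by fun_prop) (by fun_prop)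
      (by simpa using h.small j (mem_range.1 hj))
  obtain ⟨e, h1, h2⟩ := ((e1.filter_mono (nhdsWithin_le_nhds (s := Set.Ioi 0))).and
    self_mem_nhdsWithin).exists
  obtain ⟨L, a1, a2, a3, H, a4, a5⟩ := double h.base h.inv (show 0 < e from h2)
  have e2 : ∀ᶠ x in 𝓝[>] (0 : ℝ), ∀ i ∈ range (n + 2 + (n + 2)), hw (L x) i < 1 + ε := by
    refine (eventually_all_finset _).2 fun i hi => ?_
    have := mem_range.1 hi
    rcases lt_or_ge i (n + 2) with h3 | h3
    · exact (a3 i h3).eventually (gt_mem_nhds (h.small i h3))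
    · obtain ⟨j, rfl⟩ := Nat.exists_eq_add_of_le h3
      exact (a5 j (by omega)).eventually (gt_mem_nhds ((mul_lt_mul_of_pos_right a4
        (h.base.hw_pos (by omega))).trans (h1 j (mem_range.2 (by omega)))))
  obtain ⟨x, h3, h4⟩ := (a2.and e2).exists
  exact ⟨L x, ⟨h3.1, h3.2, fun i hi => h4 i (mem_range.2 hi)⟩, fun i hi => a1 x i (by omega)⟩

lemma exists_limit {ε : ℝ} (hε : 0 < ε) :
    ∃ Λ : ℕ → ℝ, ∀ m, ∃ n l, m ≤ n ∧ Good ε n l ∧ ∀ i, i ≤ m → Λ i = l i := by
  have step : ∀ p : {p : ℕ × (ℕ → ℝ) // Good ε p.1 p.2}, ∃ q : {p : ℕ × (ℕ → ℝ) // Good ε p.1 p.2},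
      p.1.1 < q.1.1 ∧ ∀ i, i ≤ p.1.1 → q.1.2 i = p.1.2 i := fun p => by
    obtain ⟨l', h1, h2⟩ := p.2.step
    exact ⟨⟨(_, l'), h1⟩, by simp only; omega, h2⟩
  choose f f1 f2 using step
  obtain ⟨s, s1⟩ : ∃ s : ℕ → {p : ℕ × (ℕ → ℝ) // Good ε p.1 p.2}, ∀ k, s (k + 1) = f (s k) :=
    ⟨fun k => f^[k] ⟨(0, one), good_one hε⟩, fun k => Function.iterate_succ_apply' _ _ _⟩
  have s2 : ∀ k, k ≤ (s k).1.1 := fun k => by
    induction k with
    | zero => omega
    | succ k ih => have := f1 (s k); rw [s1]; omega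
  refine ⟨fun i => (s i).1.2 i, fun m => ⟨_, _, s2 m, (s m).2, fun i hi => ?_⟩⟩
  induction m, hi using Nat.le_induction with
  | base => rfl
  | succ k hk ih => rw [s1, f2 _ i (hk.trans (s2 k)), ih]

theorem exists_monic {ε : ℝ} (hε : 0 < ε) : ∃ Λ : ℕ → ℝ, (∀ i, 1 ≤ i → 0 < Λ i) ∧
    (∀ i, 0 < u Λ i) ∧ (∀ a b c, 0 ≤ E Λ a b c) ∧ ∀ i, hw Λ i < 1 + ε := by
  obtain ⟨Λ, h⟩ := exists_limit hε
  refine ⟨Λ, fun i hi => ?_, fun i => ?_, fun a b c => ?_, fun i => ?_⟩
  · obtain ⟨n, l, h1, h2, h3⟩ := h i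
    rw [h3 i le_rfl]
    exact h2.base.pos i hi (by omega)
  · obtain ⟨n, l, h1, h2, h3⟩ := h i
    rw [u_congr fun j _ hj => h3 j hj.le]
    exact h2.base.upos i (by omega)
  · obtain ⟨n, l, h1, h2, h3⟩ := h (a + b)
    rw [E_congr (l' := cat (n + 2) l l) fun j _ hj => by rw [h3 j hj.le, cat_lt l l (by omega)]]
    exact h2.inv.nonneg h2.base.pos (by omega) (by omega) c
  · obtain ⟨n, l, h1, h2, h3⟩ := h i
    rw [hw_congr fun j _ hj => h3 j hj]
    exact h2.small i (by omega)

lemma expand_Icc (l : ℕ → ℝ) (m n : ℕ) :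
    mp l m * mp l n = ∑ k ∈ Icc (Nat.dist m n) (m + n), C (E l m n k) * mp l k := by
  rw [expand l (d := m + n + 1) (F := mp l m * mp l n) fun c hc => E_supp l m n c (Or.inl hc)]
  refine (sum_subset (fun k hk => mem_range.2 (by have := mem_Icc.1 hk; omega))
    fun k h1 h2 => ?_).symm
  have h3 := mem_range.1 h1
  rw [mem_Icc, Nat.dist] at h2
  rcases le_total m n with h | h
  · rw [co_low_mp l l (by omega), map_zero, zero_mul]
  · rw [mul_comm (mp l m), co_low_mp l l (by omega), map_zero, zero_mul]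

lemma hw_eq {l : ℕ → ℝ} (h1 : ∀ i, 1 ≤ i → 0 < l i) (h2 : ∀ i, 0 < u l i) (n : ℕ) :
    (∏ k ∈ range n, u l (k + 1) / u l k) / (∏ k ∈ Icc 1 n, l k * u l (k - 1) / u l k) =
      hw l n := by
  induction n with
  | zero => simp [hw]
  | succ n ih =>
    have := h1 (n + 1) (by omega)
    have := h2 n
    have := h2 (n + 1)
    have : 0 < N l n := N_pos fun i a _ => h1 i a
    rw [prod_range_succ, prod_Icc_succ_top (by omega), mul_div_mul_comm, ih, hw, hw, N_succ,
      Nat.add_sub_cancel]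
    field_simp

end Pool.Agent.Work.MP_5c86b6_an.Lac
end
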